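import Pool.Agent.HN27.Ins
import Pool.Agent.GT34.Link

set_option autoImplicit false

/-!
# HN27/Count: descents, double descents and double ascents of a word
-/

namespace Pool.HN27

variable {α : Type}

/-- The sides `b` (for `u`) and `b'` (for `v`) of one and the same previous letter. -/
def Con (ω : α → ℤ) (u v : α) (b b' : Bool) : Prop :=
  (ω u < ω v → b' = true → b = true) ∧ (ω v < ω u → b = true → b' = true)

lemma con_ab (ω : α → ℤ) (u v a : α) : Con ω u v (ab ω u a) (ab ω v a) := by
  refine ⟨fun h h2 => ?_, fun h h2 => ?_⟩
  · simp only [ab, decide_eq_true_eq] at h2 ⊢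
    omega
  · simp only [ab, decide_eq_true_eq] at h2 ⊢
    omega

lemma con_true (ω : α → ℤ) (u v : α) : Con ω u v true true :=
  ⟨fun _ h => h, fun _ h => h⟩

lemma ab_true {ω : α → ℤ} {v a : α} : ab ω v a = true ↔ ω v < ω a := by simp [ab]

lemma ab_false {ω : α → ℤ} {v a : α} : ab ω v a = false ↔ ¬ ω v < ω a := by simp [ab]

/-- Descents of the word `l` between a high left end (state `q`) and a low right end. -/
def dw (ω : α → ℤ) : (α → Bool) → List α → ℕ
  | _, [] => 1
  | q, a :: l => (q a).toNat + dw ω (fun v => ab ω v a) l

/-- The letters with both neighbouring steps down (`s = true`) or both up (`s = false`). -/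
def fl (ω : α → ℤ) (s : Bool) : (α → Bool) → List α → List α
  | _, [] => []
  | q, a :: l => (bif (q a == s && nb ω a l == !s) then [a] else []) ++
      fl ω s (fun v => ab ω v a) l

/-- The first step goes down. -/
def hq (q : α → Bool) : List α → Bool
  | [] => true
  | a :: _ => q a

lemma sd_succ (b : Bool) (c : ℕ) : sd b (c + 1) = !(sd b c) := by
  induction c generalizing b with
  | zero => rfl
  | succ c ih =>
    change sd (!b) (c + 1) = !(sd (!b) c)
    exact ih _

lemma fl_sublist (ω : α → ℤ) (s : Bool) : ∀ (l : List α) (q : α → Bool),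
    (fl ω s q l).Sublist l := by
  intro l
  induction l with
  | nil => intro q; exact List.Sublist.refl _
  | cons a l ih =>
    intro q
    unfold fl
    cases (q a == s && nb ω a l == !s)
    · exact (ih _).cons a
    · exact (ih _).cons_cons a

/-- The basic count. -/
lemma count (ω : α → ℤ) (hi : Function.Injective ω) : ∀ (l : List α) (q : α → Bool), l.Nodup →
    2 * dw ω q l + (fl ω false q l).length =
      l.length + (fl ω true q l).length + 1 + (hq q l).toNat := by
  intro l
  induction l with
  | nil => intro q _; simp [dw, fl, hq]
  | cons a l ih =>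
    intro q hn
    have h1 := ih (fun v => ab ω v a) hn.of_cons
    have h2 : hq (fun v => ab ω v a) l = !(nb ω a l) := by
      cases l with
      | nil => rfl
      | cons c l =>
        have hne : a ≠ c := by
          intro h
          subst h
          simp at hn
        have h3 : ω a ≠ ω c := fun h => hne (hi h)
        simp only [hq, nb, ab]
        rcases lt_or_gt_of_ne h3 with h | h
        · rw [decide_eq_false (by omega), decide_eq_true h]; rfl
        · rw [decide_eq_false (p := ω a < ω c) (by omega), decide_eq_true h]; rfl
    rw [h2] at h1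
    simp only [dw, fl, hq, List.length_append, List.length_cons] at h1 ⊢
    cases h4 : q a <;> cases h5 : nb ω a l <;> simp [h5] at h1 ⊢ <;> omega

lemma dd_lt (ω : α → ℤ) : ∀ (l : List α) (q : α → Bool),
    (fl ω true q l).length + 1 ≤ dw ω q l := by
  intro l
  induction l with
  | nil => intro q; simp [dw, fl]
  | cons a l ih =>
    intro q
    have h1 := ih (fun v => ab ω v a)
    simp only [dw, fl, List.length_append] at h1 ⊢
    cases h4 : q a <;> cases h5 : nb ω a l <;> simp <;> omega

/-- The neighbours see no difference. -/
lemma nb_eq {ω : α → ℤ} {v a : α} {b : Bool} {c : ℕ} {l w : List α} (h : Ins ω v b c l w)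
    (hb : ab ω v a = b) (hne : ω a ≠ ω v) : nb ω a w = nb ω a l := by
  cases h with
  | here h =>
    cases b with
    | true =>
      rw [ab_true] at hb
      cases l with
      | nil =>
        simp only [nb, ab_false]; omega
      | cons c l =>
        simp only [nb, Bool.not_true, ab_false] at h
        have h1 : ab ω a v = false := by rw [ab_false]; omega
        have h2 : ab ω a c = false := by rw [ab_false]; omega
        simp only [nb]
        rw [h1, h2]
    | false =>
      rw [ab_false] at hb
      cases l with
      | nil => simp [nb] at h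
      | cons c l =>
        simp only [nb, Bool.not_false, ab_true] at h
        have h1 : ab ω a v = true := by rw [ab_true]; omega
        have h2 : ab ω a c = true := by rw [ab_true]; omega
        simp only [nb]
        rw [h1, h2]
  | skip h h' => rfl
  | cross h h' => rfl

lemma head_eq {ω : α → ℤ} {v : α} {l : List α} {q : α → Bool}
    (h : nb ω v l = !(q v)) (hc : ∀ x, Con ω x v (q x) (q v)) (hl : ∀ a ∈ l, ω a ≠ ω v) :
    ∀ a ∈ l.head?, ab ω a v = q a := by
  intro a ha
  cases l with
  | nil => simp at ha
  | cons c l =>
    simp only [List.head?_cons, Option.mem_def, Option.some.injEq] at ha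
    subst ha
    have h1 := hl c (List.mem_cons_self)
    obtain ⟨c1, c2⟩ := hc c
    simp only [nb] at h
    cases h2 : q v with
    | true =>
      rw [h2, Bool.not_true, ab_false] at h
      rw [c1 (by omega) h2, ab_true]
      omega
    | false =>
      rw [h2, Bool.not_false, ab_true] at h
      have h3 : q c = false := by
        cases h4 : q c with
        | true =>
          have := c2 h h4
          rw [h2] at this
          exact absurd this (by simp)
        | false => rfl
      rw [h3, ab_false]
      omega

lemma dw_congr {ω : α → ℤ} {l : List α} {q q' : α → Bool} (h : ∀ a ∈ l.head?, q a = q' a) :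
    dw ω q l = dw ω q' l := by
  cases l with
  | nil => rfl
  | cons a l => simp only [dw]; rw [h a (by simp)]

lemma fl_congr {ω : α → ℤ} {s : Bool} {l : List α} {q q' : α → Bool}
    (h : ∀ a ∈ l.head?, q a = q' a) : fl ω s q l = fl ω s q' l := by
  cases l with
  | nil => rfl
  | cons a l => simp only [fl]; rw [h a (by simp)]

/-- Descents before and after an insertion. -/
lemma dw_ins {ω : α → ℤ} {v : α} {b : Bool} {c : ℕ} {l w : List α} (h : Ins ω v b c l w) :
    ∀ q : α → Bool, q v = b → (∀ x, Con ω x v (q x) (q v)) → (∀ a ∈ l, ω a ≠ ω v) →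
      dw ω q w = dw ω q l + (sd b c).toNat ∧
      (fl ω true q w).length = (fl ω true q l).length + (sd b c).toNat := by
  induction h with
  | @here b l h =>
    intro q hq hc hl
    subst hq
    have h1 := head_eq h hc hl
    refine ⟨?_, ?_⟩
    · simp only [dw, sd]
      rw [dw_congr (q := fun x => ab ω x v) (q' := q) (fun a ha => h1 a ha)]
      omega
    · simp only [fl, sd, List.length_append]
      rw [fl_congr (q := fun x => ab ω x v) (q' := q) (fun a ha => h1 a ha), h]
      cases q v <;> simp [Nat.add_comm]
  | @skip b c a l w h h' ih =>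
    intro q hq hc hl
    have h1 := ih (fun x => ab ω x a) h (fun x => con_ab ω x v a)
      (fun e he => hl e (List.mem_cons_of_mem _ he))
    have h2 := nb_eq h' h (hl a List.mem_cons_self)
    refine ⟨?_, ?_⟩
    · simp only [dw]; omega
    · simp only [fl, List.length_append]
      rw [h2]; omega
  | @cross b c a l w h h' ih =>
    intro q hq hc hl
    have h1 := ih (fun x => ab ω x a) h (fun x => con_ab ω x v a)
      (fun e he => hl e (List.mem_cons_of_mem _ he))
    have h2 := nb_eq h' h (hl a List.mem_cons_self)
    have h3 : sd b (c + 1) = sd (!b) c := rfl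
    rw [h3]
    refine ⟨?_, ?_⟩
    · simp only [dw]; omega
    · simp only [fl, List.length_append]
      rw [h2]; omega

lemma mem_fl_of_ins {ω : α → ℤ} {v : α} {b : Bool} {c : ℕ} {l w : List α}
    (h : Ins ω v b c l w) : ∀ q : α → Bool, q v = b → v ∈ fl ω (sd b c) q w := by
  induction h with
  | @here b l h =>
    intro q hq
    have h3 : sd b 0 = b := rfl
    rw [h3]
    simp only [fl]
    rw [hq, h]
    simp
  | skip h h' ih =>
    intro q hq
    simp only [fl]
    exact List.mem_append_right _ (ih _ h)
  | cross h h' ih =>
    intro q hq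
    exact List.mem_append_right _ (ih _ h)

lemma ins_of_mem_fl {ω : α → ℤ} {s : Bool} : ∀ (w : List α) (v : α) (q : α → Bool), w.Nodup →
    v ∈ fl ω s q w → ∃ c l, v ∉ l ∧ Ins ω v (q v) c l w ∧ sd (q v) c = s := by
  intro w
  induction w with
  | nil => intro v q _ h; simp [fl] at h
  | cons a w ih =>
    intro v q hn h
    simp only [fl, List.mem_append] at h
    rw [List.nodup_cons] at hn
    rcases h with h | h
    · cases h1 : (q a == s && nb ω a w == !s) with
      | true =>
        rw [h1] at h
        simp only [cond_true, List.mem_singleton] at h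
        subst h
        rw [Bool.and_eq_true, beq_iff_eq, beq_iff_eq] at h1
        exact ⟨0, w, hn.1, Ins.here (by rw [h1.2, h1.1]), h1.1⟩
      | false =>
        rw [h1] at h
        simp at h
    · obtain ⟨c, l, h1, h2, h3⟩ := ih v _ hn.2 h
      have hva : v ≠ a := by
        rintro rfl
        exact hn.1 ((fl_sublist ω s w _).subset h)
      by_cases h4 : ab ω v a = q v
      · refine ⟨c, a :: l, ?_, Ins.skip h4 (h4 ▸ h2), by rw [← h4]; exact h3⟩
        simp [hva, h1]
      · have h5 : ab ω v a = !(q v) := by
          cases h6 : ab ω v a <;> cases h7 : q v <;> simp_all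
        refine ⟨c + 1, a :: l, ?_, Ins.cross h5 (h5 ▸ h2), ?_⟩
        · simp [hva, h1]
        · simp only [sd]
          rw [← h5]; exact h3

lemma dw_desL {V : Type} [PartialOrder V] (ω : V → ℤ) : ∀ (l : List V) (a : V),
    dw ω (fun v => ab ω v a) l = Pool.GT34.desL (Pool.GT34.Dl ω) a l + 1 := by
  intro l
  induction l with
  | nil => intro a; rfl
  | cons c l ih =>
    intro a
    simp only [dw, Pool.GT34.desL]
    rw [ih c]
    by_cases h : ω c < ω a
    · have h' : Pool.GT34.Dl ω a c := h
      rw [if_pos h', ab_true.2 h]
      simp only [Bool.toNat_true]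
      omega
    · have h' : ¬ Pool.GT34.Dl ω a c := h
      rw [if_neg h', ab_false.2 h]
      simp only [Bool.toNat_false]
      omega

lemma dw_desH {V : Type} [PartialOrder V] (ω : V → ℤ) {l : List V} (hl : l ≠ []) :
    dw ω (fun _ => true) l = Pool.GT34.desH (Pool.GT34.Dl ω) l + 2 := by
  cases l with
  | nil => exact absurd rfl hl
  | cons a l =>
    simp only [dw, Pool.GT34.desH, Bool.toNat_true]
    rw [dw_desL]
    omega

end Pool.HN27
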