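import Pool.Agent.HN27.Hop
import Pool.Agent.HN34.Lym

set_option autoImplicit false

/-!
# HN27/Double: the double count
-/

open Polynomial

namespace Pool.HN27

open Pool.GT34

section Double

variable {V : Type} [Fintype V] [PartialOrder V] [Nonempty V]

/-- The linear extensions as words. -/
noncomputable def Lx (V : Type) [Fintype V] [PartialOrder V] : Finset (List V) :=
  LE (Fintype.card V) Finset.univ

omit [Nonempty V] in
lemma mem_Lx {w : List V} : w ∈ Lx V ↔
    w.Nodup ∧ (∀ z, z ∈ w) ∧ w.Pairwise (fun a b => ¬ b < a) := by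
  unfold Lx
  rw [mem_LE _ _ Finset.card_univ]
  simp

omit [Nonempty V] in
lemma length_Lx {w : List V} (h : w ∈ Lx V) : w.length = Fintype.card V := by
  classical
  rw [mem_Lx] at h
  rw [← List.toFinset_card_of_nodup h.1, ← Finset.card_univ]
  congr 1
  ext z
  simp [h.2.1 z]

/-- Descents, with the ends. -/
def des (ω : V → ℤ) (w : List V) : ℕ := dw ω (fun _ => true) w

/-- Number of double descents. -/
def ddn (ω : V → ℤ) (w : List V) : ℕ := (fl ω true (fun _ => true) w).length

/-- Number of double ascents. -/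
def dan (ω : V → ℤ) (w : List V) : ℕ := (fl ω false (fun _ => true) w).length

omit [Nonempty V] in
lemma count_Lx {ω : V → ℤ} (hi : Function.Injective ω) {w : List V} (h : w ∈ Lx V) :
    2 * des ω w + dan ω w = Fintype.card V + ddn ω w + 2 := by
  have h1 := count ω hi w (fun _ => true) (mem_Lx.1 h).1
  have h2 : hq (fun _ => true) w = true := by
    cases w <;> rfl
  rw [h2, length_Lx h] at h1
  simp only [Bool.toNat_true] at h1
  unfold des dan ddn
  omega

open Classical in
/-- The words with `v` valleys and `r` double descents. -/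
noncomputable def cls (ω : V → ℤ) (v r : ℕ) : Finset (List V) :=
  (Lx V).filter (fun w => des ω w = v + r + 1 ∧ ddn ω w = r)

omit [Nonempty V] in
lemma mem_cls {ω : V → ℤ} {v r : ℕ} {w : List V} :
    w ∈ cls ω v r ↔ w ∈ Lx V ∧ des ω w = v + r + 1 ∧ ddn ω w = r := by
  classical
  simp [cls]

open Classical in
/-- The hop as a function. -/
noncomputable def hopf (ω : V → ℤ) (t : V → Bool) (w : List V) (v : V) : List V :=
  if h : ∃ w', Hop ω t v w w' then h.choose else w

omit [Fintype V] [PartialOrder V] [Nonempty V] in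
lemma hopf_spec {ω : V → ℤ} {t : V → Bool} {w : List V} {v : V}
    (hn : w.Nodup) (h : v ∈ fl ω false (fun _ => true) w) : Hop ω t v w (hopf ω t w v) := by
  have h1 := exists_hop t hn h
  unfold hopf
  rw [dif_pos h1]
  exact h1.choose_spec

omit [Nonempty V] in
theorem lym_step {ω : V → ℤ} (hi : Function.Injective ω) {t : V → Bool}
    (ht : ∀ x y, x ⋖ y → ω x < ω y → t x = false ∧ t y = true) (v r : ℕ) :
    (Fintype.card V - 2 * v - r) * (cls ω v r).card ≤ (r + 1) * (cls ω v (r + 1)).card := by
  classical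
  have e1 : ((cls ω v r).sigma (fun w => (fl ω false (fun _ => true) w).toFinset)).card =
      (Fintype.card V - 2 * v - r) * (cls ω v r).card := by
    rw [Finset.card_sigma, Finset.sum_congr rfl (g := fun _ => Fintype.card V - 2 * v - r),
      Finset.sum_const, smul_eq_mul, mul_comm]
    intro w hw
    rw [mem_cls] at hw
    have h1 := count_Lx hi hw.1
    rw [List.toFinset_card_of_nodup ((fl_sublist _ _ _ _).nodup (mem_Lx.1 hw.1).1)]
    change dan ω w = _
    omega
  have e2 : ((cls ω v (r + 1)).sigma (fun w => (fl ω true (fun _ => true) w).toFinset)).card =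
      (r + 1) * (cls ω v (r + 1)).card := by
    rw [Finset.card_sigma, Finset.sum_congr rfl (g := fun _ => r + 1),
      Finset.sum_const, smul_eq_mul, mul_comm]
    intro w hw
    rw [mem_cls] at hw
    rw [List.toFinset_card_of_nodup ((fl_sublist _ _ _ _).nodup (mem_Lx.1 hw.1).1)]
    exact hw.2.2
  rw [← e1, ← e2]
  refine Finset.card_le_card_of_injOn (fun p => ⟨hopf ω t p.1 p.2, p.2⟩) ?_ ?_
  · rintro ⟨w, x⟩ hp
    rw [Finset.mem_coe, Finset.mem_sigma, List.mem_toFinset, mem_cls] at hp
    obtain ⟨⟨h1, h2, h3⟩, h4⟩ := hp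
    have h5 := mem_Lx.1 h1
    have h6 : Hop ω t x w (hopf ω t w x) := hopf_spec h5.1 h4
    obtain ⟨c1, c2, c3⟩ := h6.count hi
    rw [Finset.mem_coe, Finset.mem_sigma, List.mem_toFinset, mem_cls]
    refine ⟨⟨?_, ?_, ?_⟩, c3⟩
    · rw [mem_Lx]
      refine ⟨h6.perm.nodup_iff.1 h5.1, fun z => h6.perm.mem_iff.1 (h5.2.1 z), ?_⟩
      exact h6.closed hi ht h5.1 h5.2.1 h5.2.2
    · change dw ω (fun _ => true) (hopf ω t w x) = _
      change dw ω (fun _ => true) w = _ at h2
      omega
    · change (fl ω true (fun _ => true) (hopf ω t w x)).length = _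
      change (fl ω true (fun _ => true) w).length = _ at h3
      omega
  · rintro ⟨w1, x1⟩ hp1 ⟨w2, x2⟩ hp2 he
    rw [Finset.mem_coe, Finset.mem_sigma, List.mem_toFinset, mem_cls] at hp1 hp2
    simp only [Sigma.mk.injEq, heq_eq_eq] at he
    obtain ⟨he1, rfl⟩ := he
    have h1 := hopf_spec (t := t) (mem_Lx.1 hp1.1.1).1 hp1.2
    have h2 := hopf_spec (t := t) (mem_Lx.1 hp2.1.1).1 hp2.2
    simp only at h1 h2 hp1 hp2
    rw [he1] at h1
    rw [h1.inj h2]

/-- The hop theorem. -/
theorem hop_cone (ω : V → ℤ) (hi : Function.Injective ω) (t : V → Bool)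
    (ht : ∀ x y, x ⋖ y → ω x < ω y → t x = false ∧ t y = true) :
    W (Dl ω) (Finset.univ : Finset V) ∈ Up ((Fintype.card V : ℤ) - 2) := by
  classical
  set n := Fintype.card V with hn
  have hW : W (Dl ω) (Finset.univ : Finset V) = ∑ w ∈ Lx V, X ^ desH (Dl ω) w := by
    rw [W_eq_sum _ Finset.univ_nonempty, Finset.card_univ]
    rfl
  have hne : ∀ w ∈ Lx V, w ≠ [] := by
    rintro w hw rfl
    have := length_Lx hw
    have h2 := Fintype.card_pos (α := V)
    simp at this
    omega
  have hX : X ^ 2 * W (Dl ω) (Finset.univ : Finset V) = ∑ w ∈ Lx V, (X : ℕ[X]) ^ des ω w := by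
    rw [hW, Finset.mul_sum]
    refine Finset.sum_congr rfl fun w hw => ?_
    unfold des
    rw [dw_desH ω (hne w hw), ← pow_add, add_comm]
  have hsum : ∑ w ∈ Lx V, (X : ℕ[X]) ^ des ω w = ∑ v ∈ Finset.range (n + 1),
      X ^ (v + 1) * ∑ r ∈ Finset.range (n - 2 * v + 1), (cls ω v r).card • (X : ℕ[X]) ^ r := by
    rw [← Finset.sum_fiberwise_of_maps_to (s := Lx V) (t := Finset.range (n + 1))
      (g := fun w => des ω w - ddn ω w - 1)]
    · refine Finset.sum_congr rfl fun v _ => ?_
      rw [← Finset.sum_fiberwise_of_maps_to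
        (s := (Lx V).filter (fun w => des ω w - ddn ω w - 1 = v))
        (t := Finset.range (n - 2 * v + 1)) (g := fun w => ddn ω w), Finset.mul_sum]
      · refine Finset.sum_congr rfl fun r _ => ?_
        rw [Finset.filter_filter, mul_smul_comm, ← pow_add, ← Finset.sum_const]
        refine Finset.sum_congr ?_ ?_
        · ext w
          rw [mem_cls, Finset.mem_filter]
          refine and_congr_right fun hw => ?_
          have h1 : ddn ω w + 1 ≤ des ω w := dd_lt ω w _
          omega
        · intro w hw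
          rw [mem_cls] at hw
          congr 1
          omega
      · intro w hw
        rw [Finset.mem_filter] at hw
        rw [Finset.mem_range]
        have h1 : ddn ω w + 1 ≤ des ω w := dd_lt ω w _
        have h2 := count_Lx hi hw.1
        omega
    · intro w hw
      rw [Finset.mem_range]
      have h1 : ddn ω w + 1 ≤ des ω w := dd_lt ω w _
      have h2 := count_Lx hi hw
      omega
  have hUp : X ^ 2 * W (Dl ω) (Finset.univ : Finset V) ∈ Up ((n : ℤ) + 2) := by
    rw [hX, hsum]
    refine sum_mem fun v _ => ?_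
    refine Up_mono ?_ (X_pow_mul_mem_Up (Pool.HN34.lym_Up (n - 2 * v) (fun r => (cls ω v r).card)
      (fun r _ => lym_step hi ht v r)) (v + 1))
    omega
  have := Up_div hUp
  refine Up_mono ?_ this
  push_cast
  omega

end Double

end Pool.HN27
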