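import Pool.Agent.HN27.Count
import Pool.Agent.GT34.Poly

set_option autoImplicit false

/-!
# HN27/Hop: the hops and the double count
-/

open Polynomial

namespace Pool.HN27

open Pool.GT34

section Hops

variable {α : Type}

/-- The hop of a double ascent `v`: to the next crossing to the right when `t v` is true, to the
next crossing to the left otherwise. -/
def Hop (ω : α → ℤ) (t : α → Bool) (v : α) (w w' : List α) : Prop :=
  ∃ c l, v ∉ l ∧ Ins ω v true c l w ∧ sd true c = false ∧
    ((t v = true ∧ Ins ω v true (c + 1) l w') ∨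
      (t v = false ∧ ∃ c', c = c' + 1 ∧ Ins ω v true c' l w'))

lemma exists_hop {ω : α → ℤ} (t : α → Bool) {v : α} {w : List α} (hn : w.Nodup)
    (h : v ∈ fl ω false (fun _ => true) w) : ∃ w', Hop ω t v w w' := by
  obtain ⟨c, l, h1, h2, h3⟩ := ins_of_mem_fl w v _ hn h
  cases h4 : t v with
  | true =>
    obtain ⟨w', hw'⟩ := h2.ex_succ h3
    exact ⟨w', c, l, h1, h2, h3, Or.inl ⟨h4, hw'⟩⟩
  | false =>
    cases c with
    | zero => simp [sd] at h3
    | succ c =>
      obtain ⟨w', hw'⟩ := h2.ex_pred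
      exact ⟨w', c + 1, l, h1, h2, h3, Or.inr ⟨h4, c, rfl, hw'⟩⟩

lemma Hop.inj {ω : α → ℤ} {t : α → Bool} {v : α} {w1 w2 w' : List α} (h1 : Hop ω t v w1 w')
    (h2 : Hop ω t v w2 w') : w1 = w2 := by
  obtain ⟨c1, l1, a1, a2, a3, a4⟩ := h1
  obtain ⟨c2, l2, b1, b2, b3, b4⟩ := h2
  rcases a4 with ⟨a4, a5⟩ | ⟨a4, c1', rfl, a5⟩
  · rcases b4 with ⟨b4, b5⟩ | ⟨b4, c2', rfl, b5⟩
    · obtain ⟨e1, e2⟩ := a5.inj b5 a1 b1
      have e3 : c1 = c2 := by omega
      subst e3
      subst e2
      exact a2.det b2
    · rw [a4] at b4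
      exact absurd b4 (by simp)
  · rcases b4 with ⟨b4, b5⟩ | ⟨b4, c2', rfl, b5⟩
    · rw [a4] at b4
      exact absurd b4 (by simp)
    · obtain ⟨e1, e2⟩ := a5.inj b5 a1 b1
      subst e1
      subst e2
      exact a2.det b2

lemma Hop.perm {ω : α → ℤ} {t : α → Bool} {v : α} {w w' : List α} (h : Hop ω t v w w') :
    w.Perm w' := by
  obtain ⟨c, l, a1, a2, a3, a4⟩ := h
  rcases a4 with ⟨a4, a5⟩ | ⟨a4, c', rfl, a5⟩
  · exact a2.perm.trans a5.perm.symm
  · exact a2.perm.trans a5.perm.symm

/-- What a hop does: one more descent, one more double descent, namely `v`. -/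
lemma Hop.count {ω : α → ℤ} (hi : Function.Injective ω) {t : α → Bool} {v : α} {w w' : List α}
    (h : Hop ω t v w w') :
    dw ω (fun _ => true) w' = dw ω (fun _ => true) w + 1 ∧
    (fl ω true (fun _ => true) w').length = (fl ω true (fun _ => true) w).length + 1 ∧
    v ∈ fl ω true (fun _ => true) w' := by
  obtain ⟨c, l, a1, a2, a3, a4⟩ := h
  have hl : ∀ a ∈ l, ω a ≠ ω v := by
    intro a ha he
    exact a1 (hi he ▸ ha)
  have hc : ∀ x : α, Con ω x v ((fun _ => true : α → Bool) x) ((fun _ => true : α → Bool) v) :=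
    fun x => con_true ω x v
  obtain ⟨d1, d2⟩ := dw_ins a2 (fun _ => true) rfl hc hl
  rw [a3, Bool.toNat_false] at d1 d2
  have key : ∀ c', sd true c' = true → Ins ω v true c' l w' →
      dw ω (fun _ => true) w' = dw ω (fun _ => true) w + 1 ∧
      (fl ω true (fun _ => true) w').length = (fl ω true (fun _ => true) w).length + 1 ∧
      v ∈ fl ω true (fun _ => true) w' := by
    intro c' hs hI
    obtain ⟨e1, e2⟩ := dw_ins hI (fun _ => true) rfl hc hl
    rw [hs, Bool.toNat_true] at e1 e2
    refine ⟨by omega, by omega, ?_⟩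
    have := mem_fl_of_ins hI (fun _ => true) rfl
    rwa [hs] at this
  rcases a4 with ⟨a4, a5⟩ | ⟨a4, c', rfl, a5⟩
  · exact key _ (by rw [sd_succ, a3]; rfl) a5
  · refine key _ ?_ a5
    rw [sd_succ] at a3
    simpa using a3

end Hops

section Poset

variable {V : Type} [PartialOrder V]

lemma pairwise_right {v : V} {A Z B : List V}
    (h : (A ++ v :: (Z ++ B)).Pairwise (fun a b => ¬ b < a)) (hz : ∀ z ∈ Z, ¬ v < z) :
    (A ++ (Z ++ v :: B)).Pairwise (fun a b => ¬ b < a) := by
  rw [List.pairwise_append, List.pairwise_cons, List.pairwise_append] at h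
  rw [List.pairwise_append, List.pairwise_append, List.pairwise_cons]
  obtain ⟨h1, ⟨h2, h3, h4, h5⟩, h6⟩ := h
  refine ⟨h1, ⟨h3, ⟨fun b hb => h2 b (List.mem_append_right _ hb), h4⟩, ?_⟩, ?_⟩
  · intro a ha b hb
    rcases List.mem_cons.1 hb with rfl | hb
    · exact hz a ha
    · exact h5 a ha b hb
  · intro a ha b hb
    rcases List.mem_append.1 hb with hb | hb
    · exact h6 a ha b (by simp [hb])
    · rcases List.mem_cons.1 hb with rfl | hb
      · exact h6 a ha b (by simp)
      · exact h6 a ha b (by simp [hb])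

lemma pairwise_left {v : V} {A Z B : List V}
    (h : (A ++ (Z ++ v :: B)).Pairwise (fun a b => ¬ b < a)) (hz : ∀ z ∈ Z, ¬ z < v) :
    (A ++ v :: (Z ++ B)).Pairwise (fun a b => ¬ b < a) := by
  rw [List.pairwise_append, List.pairwise_append, List.pairwise_cons] at h
  rw [List.pairwise_append, List.pairwise_cons, List.pairwise_append]
  obtain ⟨h1, ⟨h3, ⟨h2, h4⟩, h5⟩, h6⟩ := h
  refine ⟨h1, ⟨?_, h3, h4, fun a ha b hb => h5 a ha b (List.mem_cons_of_mem _ hb)⟩, ?_⟩
  · intro b hb
    rcases List.mem_append.1 hb with hb | hb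
    · exact hz b hb
    · exact h2 b hb
  · intro a ha b hb
    rcases List.mem_cons.1 hb with rfl | hb
    · exact h6 a ha b (by simp)
    · rcases List.mem_append.1 hb with hb | hb
      · exact h6 a ha b (by simp [hb])
      · exact h6 a ha b (by simp [hb])

/-- Hops stay among the linear extensions. -/
lemma Hop.closed [Finite V] {ω : V → ℤ} (hi : Function.Injective ω) {t : V → Bool}
    (ht : ∀ x y, x ⋖ y → ω x < ω y → t x = false ∧ t y = true) {v : V} {w w' : List V}
    (hn : w.Nodup) (hall : ∀ z, z ∈ w) (hw : w.Pairwise (fun a b => ¬ b < a))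
    (h : Hop ω t v w w') : w'.Pairwise (fun a b => ¬ b < a) := by
  obtain ⟨c, l, a1, a2, a3, a4⟩ := h
  rcases a4 with ⟨a4, a5⟩ | ⟨a4, c', rfl, a5⟩
  · obtain ⟨A, Z, B, rfl, rfl, rfl, h3⟩ := a2.adj a5
    refine pairwise_right hw ?_
    intro z hz hvz
    rw [a3] at h3
    obtain ⟨u, hu1, hu2⟩ := exists_covBy_le_of_lt hvz
    have hu3 : u ∈ Z := by
      rcases List.mem_append.1 (hall u) with hu | hu
      · exfalso
        rw [List.pairwise_append] at hw
        exact hw.2.2 u hu v (by simp) hu1.lt
      · rcases List.mem_cons.1 hu with hu | hu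
        · exact absurd hu hu1.lt.ne'
        · rcases List.mem_append.1 hu with hu | hu
          · exact hu
          · exfalso
            rw [List.pairwise_append, List.pairwise_cons, List.pairwise_append] at hw
            rcases hu2.lt_or_eq with hu4 | hu4
            · exact hw.2.1.2.2.2 z hz u hu hu4
            · subst hu4
              rw [List.nodup_append, List.nodup_cons, List.nodup_append] at hn
              exact hn.2.1.2.2.2 u hz u hu rfl
    have h4 := h3 u hu3
    rw [Bool.not_false, ab_true] at h4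
    have h5 := (ht v u hu1 h4).1
    rw [a4] at h5
    exact absurd h5 (by simp)
  · obtain ⟨A, Z, B, rfl, rfl, rfl, h3⟩ := a5.adj a2
    refine pairwise_left hw ?_
    intro z hz hvz
    rw [sd_succ] at a3
    rw [a3] at h3
    obtain ⟨u, hu1, hu2⟩ := exists_le_covBy_of_lt hvz
    have hu3 : u ∈ Z := by
      rcases List.mem_append.1 (hall u) with hu | hu
      · exfalso
        rw [List.pairwise_append] at hw
        rcases hu1.lt_or_eq with hu4 | hu4
        · exact hw.2.2 u hu z (by simp [hz]) hu4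
        · subst hu4
          rw [List.nodup_append] at hn
          exact hn.2.2 z hu z (by simp [hz]) rfl
      · rcases List.mem_append.1 hu with hu | hu
        · exact hu
        · exfalso
          rcases List.mem_cons.1 hu with hu | hu
          · exact hu2.lt.ne hu
          · rw [List.pairwise_append, List.pairwise_append, List.pairwise_cons] at hw
            exact hw.2.1.2.1.1 u hu hu2.lt
    have h4 := h3 u hu3
    rw [ab_false] at h4
    have h6 : ω u ≠ ω v := fun he => hu2.lt.ne (hi he)
    have h5 := (ht u v hu2 (by omega)).2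
    rw [a4] at h5
    exact absurd h5 (by simp)

end Poset

end Pool.HN27
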