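import Mathlib

set_option autoImplicit false

/-!
# HN27/Ins: inserting a letter at a crossing of a word

Words are lists. A word is read between a high left end and a low right end. A letter `v` can be
inserted as a double ascent or a double descent exactly at the places where the word crosses the
height of `v`; these places are numbered from the left.
-/

namespace Pool.HN27

variable {α : Type}

/-- The letter `a` is above `v`. -/
def ab (ω : α → ℤ) (v a : α) : Bool := decide (ω v < ω a)

/-- The next letter (or the low end) is above `v`. -/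
def nb (ω : α → ℤ) (v : α) : List α → Bool
  | [] => false
  | a :: _ => ab ω v a

/-- `w` is `l` with `v` inserted at crossing number `c`; `b` tells whether we start above `v`. -/
inductive Ins (ω : α → ℤ) (v : α) : Bool → ℕ → List α → List α → Prop
  | here {b : Bool} {l : List α} (h : nb ω v l = !b) : Ins ω v b 0 l (v :: l)
  | skip {b : Bool} {c : ℕ} {a : α} {l w : List α} (h : ab ω v a = b) (h' : Ins ω v b c l w) :
      Ins ω v b c (a :: l) (a :: w)
  | cross {b : Bool} {c : ℕ} {a : α} {l w : List α} (h : ab ω v a = !b)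
      (h' : Ins ω v (!b) c l w) : Ins ω v b (c + 1) (a :: l) (a :: w)

/-- The side before crossing number `c`. -/
def sd : Bool → ℕ → Bool
  | b, 0 => b
  | b, c + 1 => sd (!b) c

lemma sd_even (b : Bool) (c : ℕ) : sd b (2 * c) = b := by
  induction c generalizing b with
  | zero => rfl
  | succ c ih =>
    change sd (!(!b)) (2 * c) = b
    rw [ih, Bool.not_not]

lemma sd_odd (b : Bool) (c : ℕ) : sd b (2 * c + 1) = !b := by
  change sd (!b) (2 * c) = !b
  rw [sd_even]

lemma Ins.split {ω : α → ℤ} {v : α} {b : Bool} {c : ℕ} {l w : List α} (h : Ins ω v b c l w) :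
    ∃ A B, l = A ++ B ∧ w = A ++ v :: B := by
  induction h with
  | here h => exact ⟨[], _, rfl, rfl⟩
  | skip h h' ih =>
    obtain ⟨A, B, rfl, rfl⟩ := ih
    exact ⟨_ :: A, B, rfl, rfl⟩
  | cross h h' ih =>
    obtain ⟨A, B, rfl, rfl⟩ := ih
    exact ⟨_ :: A, B, rfl, rfl⟩

lemma Ins.perm {ω : α → ℤ} {v : α} {b : Bool} {c : ℕ} {l w : List α} (h : Ins ω v b c l w) :
    w.Perm (v :: l) := by
  obtain ⟨A, B, rfl, rfl⟩ := h.split
  exact List.perm_middle

lemma Ins.det {ω : α → ℤ} {v : α} {b : Bool} {c : ℕ} {l w w' : List α} (h : Ins ω v b c l w)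
    (h2 : Ins ω v b c l w') : w = w' := by
  induction h generalizing w' with
  | here h =>
    cases h2 with
    | here h2 => rfl
    | skip h2 h2' =>
      simp only [nb] at h
      rw [h] at h2
      simp at h2
  | skip h h' ih =>
    cases h2 with
    | here h2 =>
      simp only [nb] at h2
      rw [h] at h2
      simp at h2
    | skip h2 h2' => rw [ih h2']
    | cross h2 h2' =>
      rw [h] at h2
      simp at h2
  | cross h h' ih =>
    cases h2 with
    | skip h2 h2' =>
      rw [h] at h2
      simp at h2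
    | cross h2 h2' => rw [ih h2']

lemma Ins.inj {ω : α → ℤ} {v : α} {b : Bool} {c c' : ℕ} {l l' w : List α}
    (h : Ins ω v b c l w) (h2 : Ins ω v b c' l' w) (hv : v ∉ l) (hv' : v ∉ l') :
    c = c' ∧ l = l' := by
  induction h generalizing c' l' with
  | here h =>
    cases h2 with
    | here h2 => exact ⟨rfl, rfl⟩
    | skip h2 h2' => exact absurd (List.mem_cons_self) hv'
    | cross h2 h2' => exact absurd (List.mem_cons_self) hv'
  | skip h h' ih =>
    cases h2 with
    | here h2 => exact absurd (List.mem_cons_self) hv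
    | skip h2 h2' =>
      obtain ⟨h3, h4⟩ := ih h2' (fun h5 => hv (List.mem_cons_of_mem _ h5))
        (fun h5 => hv' (List.mem_cons_of_mem _ h5))
      exact ⟨h3, by rw [h4]⟩
    | cross h2 h2' =>
      rw [h] at h2
      simp at h2
  | cross h h' ih =>
    cases h2 with
    | here h2 => exact absurd (List.mem_cons_self) hv
    | skip h2 h2' =>
      rw [h] at h2
      simp at h2
    | cross h2 h2' =>
      obtain ⟨h3, h4⟩ := ih h2' (fun h5 => hv (List.mem_cons_of_mem _ h5))
        (fun h5 => hv' (List.mem_cons_of_mem _ h5))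
      exact ⟨by rw [h3], by rw [h4]⟩

/-- Coming from above there is always a first crossing. -/
lemma Ins.ex_zero (ω : α → ℤ) (v : α) : ∀ l : List α, ∃ w, Ins ω v true 0 l w := by
  intro l
  induction l with
  | nil => exact ⟨[v], Ins.here rfl⟩
  | cons a l ih =>
    by_cases h : ab ω v a = true
    · obtain ⟨w, hw⟩ := ih
      exact ⟨a :: w, Ins.skip h hw⟩
    · exact ⟨v :: a :: l, Ins.here (by simpa [nb] using h)⟩

/-- After a crossing upwards there is another crossing. -/
lemma Ins.ex_succ {ω : α → ℤ} {v : α} {b : Bool} {c : ℕ} {l w : List α} (h : Ins ω v b c l w)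
    (hs : sd b c = false) : ∃ w', Ins ω v b (c + 1) l w' := by
  induction h with
  | @here b l h =>
    have hb : b = false := hs
    subst hb
    cases l with
    | nil => simp [nb] at h
    | cons a l =>
      obtain ⟨w', hw'⟩ := Ins.ex_zero ω v l
      exact ⟨a :: w', Ins.cross (by simpa [nb] using h) hw'⟩
  | skip h h' ih =>
    obtain ⟨w', hw'⟩ := ih hs
    exact ⟨_, Ins.skip h hw'⟩
  | cross h h' ih =>
    obtain ⟨w', hw'⟩ := ih hs
    exact ⟨_, Ins.cross h hw'⟩

/-- A crossing has all its predecessors. -/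
lemma Ins.ex_pred {ω : α → ℤ} {v : α} {b : Bool} {c : ℕ} {l w : List α}
    (h : Ins ω v b (c + 1) l w) : ∃ w', Ins ω v b c l w' := by
  generalize hc : c + 1 = e at h
  induction h generalizing c with
  | here h => omega
  | skip h h' ih =>
    obtain ⟨w', hw'⟩ := ih hc
    exact ⟨_, Ins.skip h hw'⟩
  | @cross b e a l w h h' ih =>
    rcases Nat.eq_zero_or_pos c with h0 | h0
    · subst h0
      exact ⟨v :: a :: l, Ins.here h⟩
    · obtain ⟨c, rfl⟩ : ∃ c', c = c' + 1 := ⟨c - 1, by omega⟩
      obtain ⟨w', hw'⟩ := ih (c := c) (by omega)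
      exact ⟨_, Ins.cross h hw'⟩

lemma Ins.zero_form {ω : α → ℤ} {v : α} {b : Bool} {l w : List α} (h : Ins ω v b 0 l w) :
    ∃ Z B, l = Z ++ B ∧ w = Z ++ v :: B ∧ ∀ z ∈ Z, ab ω v z = b := by
  generalize hc : 0 = e at h
  induction h with
  | here h => exact ⟨[], _, rfl, rfl, by simp⟩
  | skip h h' ih =>
    obtain ⟨Z, B, rfl, rfl, h3⟩ := ih hc
    refine ⟨_ :: Z, B, rfl, rfl, ?_⟩
    intro z hz
    rcases List.mem_cons.1 hz with rfl | hz
    · exact h
    · exact h3 z hz
  | cross h h' ih => omega

/-- Two consecutive crossings. -/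
lemma Ins.adj {ω : α → ℤ} {v : α} {b : Bool} {c : ℕ} {l w w' : List α} (h : Ins ω v b c l w)
    (h2 : Ins ω v b (c + 1) l w') :
    ∃ A Z B, l = A ++ (Z ++ B) ∧ w = A ++ v :: (Z ++ B) ∧ w' = A ++ (Z ++ v :: B) ∧
      ∀ z ∈ Z, ab ω v z = !(sd b c) := by
  induction h generalizing w' with
  | @here b l h =>
    cases h2 with
    | skip h2 h2' =>
      simp only [nb] at h
      rw [h] at h2
      simp at h2
    | @cross b _ a l w'' h2 h2' =>
      obtain ⟨Z, B, rfl, rfl, h3⟩ := h2'.zero_form
      refine ⟨[], a :: Z, B, rfl, rfl, rfl, ?_⟩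
      intro z hz
      rcases List.mem_cons.1 hz with rfl | hz
      · exact h2
      · exact h3 z hz
  | skip h h' ih =>
    cases h2 with
    | skip h2 h2' =>
      obtain ⟨A, Z, B, rfl, rfl, rfl, h3⟩ := ih h2'
      exact ⟨_ :: A, Z, B, rfl, rfl, rfl, h3⟩
    | cross h2 h2' =>
      rw [h] at h2
      simp at h2
  | cross h h' ih =>
    cases h2 with
    | skip h2 h2' =>
      rw [h] at h2
      simp at h2
    | cross h2 h2' =>
      obtain ⟨A, Z, B, rfl, rfl, rfl, h3⟩ := ih h2'
      exact ⟨_ :: A, Z, B, rfl, rfl, rfl, h3⟩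

end Pool.HN27
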